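import Mathlib
import Pool.Agent.TH170.QD.Use
import Pool.Agent.TH170.TT.Quot

/-!
# The Tate conjecture for the open subvarieties of all products of powers of the abelian varieties of
almost all CM types of arbitrary CM fields

Let `E` be a CM field of degree `2 g`; nothing is assumed about its Galois group. The automorphisms
of `ℂ` act on the set of the `2 g` complex embeddings of `E` through a finite group `G` (the Galois
group of the normal closure), and so on the space `V`, of dimension `g`, of the rational functions
on this set that change their sign under complex conjugation. There are `2 ^ g` CM types of `E`.
Let `E i` be finitely many CM fields, of degrees `2 g i`, that are pairwise independent: for `i ≠ k`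
and all complex embeddings `φ` of `E i` and `ψ` of `E k` some automorphism of `ℂ` is the identity on
`φ (E i)` and the complex conjugation on `ψ (E k)` (this is no condition for one field). There are
`2 ^ (∑ i, g i)` families `Φ` of CM types `Φ i` of the fields `E i`.

Let `X = ∏ j, A (t j)` be a product of copies of the abelian varieties `A i` of CM type `(E i, Φ i)`,
up to isogeny. Let `V = V_ℓ(X)` be the rational Tate module with the action `ρ` of the Galois group
`G` of a finitely generated field `k` and the cyclotomic character `χ`. Let `γ ∈ G` be an element (for
instance one Frobenius element) acting on `V` by the multiplication by `π ∈ H_1(X, ℚ)`, with the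
absolute values given by the formula of Shimura and Taniyama: this covers every finitely generated
field `k` of characteristic zero (where the abelian varieties of CM type are defined over number
fields after a finite extension), and the ordinary abelian varieties over finitely generated fields
of characteristic `p` with canonical lift `X`.

Let `U` be an open subvariety of `X` and `W ⊆ H^{2m}(X, ℚ_ℓ(m))` the kernel of the restriction to `U`.
The classes in the image of the restriction which are invariant under a subgroup `Δ` of finite index
are the classes `f` with `s f - f ∈ W` for `s ∈ Δ`; by the theory of weights all classes of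
`H^{2m}(U, ℚ_ℓ(m))` invariant under `Δ` are of this form. We call the family `Φ` exceptional if for
some such product `X` and some `m` one of them is not the restriction of a linear combination of
products of `m` Hodge classes of degree two, that is, of classes of divisors (Lefschetz). No
hypothesis on the semisimplicity of `ρ` is made (see `TateOpenUpTo`).

The theorem bounds the number of the exceptional families: it is at most
`2 ^ (∑ i, g i) * ∑ i, ρ (E i)`, where `ρ (E)` (`rho g φ₀`) is the sum of the numbers `w (W)`
(`weight g φ₀ W`) over the isotypic components `W` of `V` (`components E`):

* `w (W) = 0` if every minimal Galois-stable space in `W` contains a function with integral values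
  whose sum over a CM type is odd;
* otherwise `w (W) = (2 d / (π g)) ^ (d / 2)` if `W` is itself a minimal space, of dimension `d`;
* otherwise `w (W)` is the smaller of `(53 λ d / g) ^ (c / 2)` (if
  `(10 ^ 4 + 10 λ) ^ 2 λ d ≤ 2 g`; replaced by `1` if not) and
  `8 (2 d / (π g)) ^ (d / 2) (10 ^ 4 + 10 λ + 6 √(d g)) ^ (d - c)`. Here `λ = log |G|`,
  `d = dim S` for the minimal spaces `S` in `W`, and `c = e + d - h`, where `e` is the dimension of
  the space of the equivariant endomorphisms of `S` and `h` the dimension of the space of the
  functions in `S` that are invariant under the stabilizer of a complex embedding.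

(If `S` is over `ℂ` the sum of `r` conjugate representations of degree `n` with the Schur index `m`,
which occur in `V` with the multiplicity `μ`, then `d = m r n`, `h = m r μ`, `e = m ^ 2 r`, and
`c = m r (n - μ + m)` is the codimension of the set of the degenerate elements. If `E` is normal
over `ℚ` then `μ = n` and `c = e = m ^ 2 r`.)

Let `Q` be the number of the imaginary quadratic subfields of `E` and `N d` the number of the
components `W` that are minimal spaces of dimension `d`. The second part (`RhoEstimate`) is the
estimate `ρ (E) ≤ Q / √g + 2 (N 2 + 1) / g + 3 N 3 / g ^ (3 / 2) + ∑ w (W)`, where the last sum is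
over the components `W` which are not minimal, and the term `Q / √g` is omitted if `g` is odd. The
third part (`NoMultipleComponents`) says that there are no such components if `E` is abelian over
`ℚ`, or if any two complex embeddings of `E` are exchanged by some automorphism of `ℂ` (for instance
`E = k F` for an imaginary quadratic field `k` and a totally real field `F` with this property, such
as the fields of degree `binomial (n, m)` which belong to the sets with `m` elements of roots of a
polynomial of degree `n` with real roots and Galois group `S_n`). Always `N 3 ≤ g / 3`; if `E` is
cyclic over `ℚ` then `g` is odd or `Q = 0`, and `N 2 ≤ 2`, `N 3 = 0`, `ρ (E) ≤ 6 / g`.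

The proof: the sign function of a degenerate CM type is orthogonal to a minimal Galois-stable space.
The number of the sign functions orthogonal to one space is estimated by a Fourier integral and the
inequality of Hölder. There are in general infinitely many minimal spaces isomorphic to `S`, but
modulo a prime number `p` that does not divide `|G|` there are only about `p ^ (h - e)` of them.
-/

namespace Pool.Agent.Results.MP_2a05c8_ag.AlmostAllCMTypes

open NumberField Module Pool.Agent.H204R3.CM Pool.Agent.H977R3.CM Pool.Agent.TH170.CM
  Pool.Agent.TH170.MF Pool.Agent.TH170.QD Pool.Agent.TH170.TT

/-- The families of CM types `Φ i` of the fields `E i` for which the Tate conjecture, by divisors,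
fails in some codimension for some open subvariety of some product of abelian varieties of CM type
`(E i, Φ i)`. -/
def exceptionalFamilies {ι : Type} (E : ι → Type) [∀ i, Field (E i)] [∀ i, NumberField (E i)]
    [∀ i, IsCMField (E i)] : Set (∀ i, Set (E i →+* ℂ)) :=
  {Φ | (∀ i, IsCMType (Φ i)) ∧ ¬ ∀ k, TateOpenUpTo Φ k}

/-- **The Tate conjecture for the open subvarieties of all products of powers of the abelian
varieties of almost all CM types of CM fields.** -/
theorem result :
    (∀ {ι : Type} [Fintype ι] (E : ι → Type) [∀ i, Field (E i)] [∀ i, NumberField (E i)]
      [∀ i, IsCMField (E i)] (g : ι → ℕ) (φ₀ : ∀ i, E i →+* ℂ), PairwiseIndep E →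
      (∀ i, finrank ℚ (E i) = 2 * g i) →
      ((exceptionalFamilies E).ncard : ℝ) ≤ 2 ^ (∑ i, g i) * ∑ i, rho (g i) (φ₀ i)) ∧
    RhoEstimate ∧ NoMultipleComponents := by
  refine ⟨fun E _ _ _ g φ₀ hE hg => ncard_families_le E hg φ₀ (fun Φ => ∀ k, TateOpenUpTo Φ k) ?_,
    rho_bounds⟩
  intro Φ hΦ hnd k
  exact tateOpenUpTo_of_levelFree (levelFree_of_not_degenerate hΦ hE hnd k)

end Pool.Agent.Results.MP_2a05c8_ag.AlmostAllCMTypes
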