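import Pool.Agent.TH125.Cyc.Pub

/-!
# The Tate conjecture for powers of cyclic covers of a variety

Let `W` be a Weil cohomology theory on a class of smooth proper varieties (over the algebraic closure
of a finitely generated field `F`), with an action of a group `Γ` (the Galois group of `F`) on the
cohomology of the varieties under consideration. The coefficient field contains the `d`-th roots of
unity, `d` odd.

Let `f : X ⟶ Y` be an equivariant morphism and `σ` an equivariant automorphism of `X` over `Y`, of
order dividing `d`, such that the cohomology of `X` is the sum of `f^* H(Y)` and of the primitive
part `T = ker f_*`, which is concentrated in the middle degree, with an algebraic projector, and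
such that `σ` has no nonzero invariants in `T`. So `T` is the sum of the eigenspaces `T_x` of `σ`,
for the `d`-th roots of unity `x ≠ 1`, and the intersection form is a perfect pairing between `T_x`
and `T_y`, `y = x⁻¹`, and zero on all other pairs.

Example: `Y` is any smooth projective variety and `X` is the cyclic cover of degree `d` branched
along a smooth ample divisor `D` (`f_* f^* = d` and `f^* f_*` is the sum of the powers of `σ`; the
primitive part is the sum of the `H^n(Y - D, L_x)`, for rank one local systems `L_x`, and is in the
middle degree as `Y - D` is affine).

Let the eigenspaces be irreducible under all subgroups of finite index of `Γ`, and let there be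
one element `g` of `Γ` which acts on them by pseudo-reflections with pairwise different eigenvalues,
and trivially on the cohomology of `Y` and `Z` and on the Tate twists. For instance, let `g` be a
generator of the tame inertia group at a place of `F` where `Y` and `Z` have good reduction and the
branch divisor acquires one ordinary double point. Then `X` acquires one singular point `z^d = x_1^2 + ⋯ + x_n^2`, and `g` acts on the
vanishing cycle in `T_x` by `± x` (Pham, Thom-Sebastiani) and trivially on its orthogonal complement
in `T_x`; the eigenvalues `± x` are pairwise different. In this example `g` has finite order on the
cohomology of `X`.

Then the Tate conjecture for the product `Y^(n+1) × Z` implies the Tate conjecture for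
`X^(n+1) × Z`, for cycles of all codimensions and every `Z`, if `n + 1` is less than the dimensions
of the eigenspaces. No assumption on the cohomology of `Y` and `Z` is made.

The proof. The classes on `X^(n+1) × Z` are decomposed according to the set of the factors `X` on
which they are primitive; they give multilinear maps on `T` with values in the cohomology of
`Y^(n+1) × Z` which are equivariant under a subgroup of finite index. Consider the Lie algebra
of the skew operators on `T` which kill all such maps. The commutator of `g` and of a conjugate of
`g` is an element of `Γ` which acts on `T_x` with at most two eigenvalues different from `1`,
`z` and `z⁻¹`; the algebra spanned by the conjugates of the pseudo-reflection on one eigenspace is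
the full matrix algebra, so the conjugate can be chosen such that `z` is not a root of unity. An
additive functional on the multiplicative group gives a semisimple element of the Lie algebra. It
is decomposed under the conjugation by `g`, whose eigenvalues `x` are pairwise different: this
separates the eigenspaces and gives the root vectors, and then all special linear Lie algebras of the
eigenspaces. By the first fundamental theorem for the special linear Lie algebra, for few arguments,
the multilinear maps are combinations of products of the forms between `T_x` and `T_y`, `y = x⁻¹`.
These forms are given by components of the diagonal of `X`, which are algebraic; the coefficients are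
Tate classes on `Y^(n+1) × Z`.
-/

universe u v w

namespace Pool.Agent.Results.MP_2a05c8_ag.CyclicCovers

open Pool.Agent.H914 Pool.Agent.H281R3.HT Pool.Agent.TH125.Gal Pool.Agent.TH125.Sec
  Pool.Agent.TH125.Cyc

/-- **The Tate conjecture for powers of cyclic covers of a variety.** -/
theorem result {k : Type u} [Field k] {𝒱 : VarClass k} {ops : CycleOps 𝒱}
    (W : WeilCohomology.{u, v} ops) {Γ : Type w} [Group Γ] (χ : Γ →* W.Kˣ) (G : Set (GVar W Γ))
    (X Y Z : GVar W Γ) (f : X.X ⟶ Y.X) (σ : X.X ⟶ X.X) (d : ℕ) (h : CyclicOver χ G f σ d Z)
    (n : ℕ) (hn : SmallEigen d (relPrimitive W f) (W.map σ) n) (A B : GVar W Γ)
    (hA : IsPowProd Y n Z A) (hB : IsPowProd X n Z B) :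
    TateConjecture χ A → TateConjecture χ B :=
  tate_cyclic h hn hA hB

end Pool.Agent.Results.MP_2a05c8_ag.CyclicCovers
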