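import Pool.Agent.W547.UB.Tate

/-!
# Tate classes on open subvarieties of abelian varieties of CM type, in independent blocks

Let `X` be an abelian variety of CM type, up to isogeny a product of any number of abelian varieties
`A i` with complex multiplication by CM fields `E i`, with CM types `Φ i`. The factors are divided into
blocks (the block of the factor `A i` is `b i`), such that for each block there is an automorphism of
the field of complex numbers that acts as the complex conjugation on all embeddings of the CM fields in
this block and trivially on all embeddings of the CM fields in the other blocks (the intersection of
the Galois closure of the fields of the block with the compositum of the Galois closures of the other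
fields is totally real; for one block this is no condition). Each block is of one of the following
kinds:

* its factors have dimension at most three, and any two of them whose CM fields have the same Galois
  closure over `ℚ` have isomorphic CM types, unless these CM fields are Galois over `ℚ`;
* its factors are factors (up to isogeny) of one abelian variety of CM type of dimension at most
  five, each with any multiplicity;
* its factors have the same CM type, with a CM field of degree at most fourteen;
* its factors are factors (up to isogeny) of one nondegenerate abelian variety of CM type, of
  arbitrary dimension, each with any multiplicity.

Let `V = V_ℓ(X)` be the rational Tate module with the action `ρ` of the Galois group `G` of a finitely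
generated field `k` and the cyclotomic character `χ`. Let `γ ∈ G` be an element (for instance one
Frobenius element) acting on `V` by the multiplication by `π ∈ H_1(X, ℚ)`, with the absolute values
given by the formula of Shimura and Taniyama: this covers every finitely generated field `k` of
characteristic zero (where the abelian varieties of CM type are defined over number fields after a
finite extension), and the ordinary abelian varieties over finitely generated fields of
characteristic `p`.

Let `U` be an open subvariety of `X` and `W ⊆ H^{2m}(X, ℚ_ℓ(m))` the kernel of the restriction to `U`.
The classes in the image of the restriction which are invariant under a subgroup `Δ` of finite index are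
the classes `f` with `s f - f ∈ W` for `s ∈ Δ`; by the theory of weights all classes of
`H^{2m}(U, ℚ_ℓ(m))` invariant under `Δ` are of this form. The theorem says that all of them are
restrictions of linear combinations of polynomials in classes of divisors and pull-backs, along
homomorphisms, of Weil classes of imaginary quadratic fields on abelian fourfolds and
sixfolds of CM type and of split Weil type (which are algebraic by theorems of Markman). No hypothesis
on the semisimplicity of `ρ` is made.
-/

namespace Pool.Agent.Results.MP_2a05c8_ag.OpenInIndependentBlocks

open Module Pool.Agent.W547.KB Pool.Agent.W547.LD Pool.Agent.W530.NF Pool.Agent.W547.LF
open Pool.Agent.W547.LQ Pool.Agent.W547.UB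

/-- Let `X` be an abelian variety of CM type in independent blocks: for every subspace `W` of
`H^{2m}(X, ℚ_ℓ(m))` stable under a subgroup `Δ` of finite index, all classes invariant under `Δ`
modulo `W` are congruent modulo `W` to combinations of polynomials in divisors and pull-backs of
split Weil classes. -/
theorem result (X : CMAV) {J : Type} (b : X.I → J) (hX : IndependentBlocks X b)
    {K V G : Type} [Field K] [CharZero K] [AddCommGroup V] [Module K V] [Group G]
    (C : Comparison X K V) (ρ : Representation K G V) (χ : G →* K) (w : AbsoluteValue ℂ ℝ)
    (q : ℕ) (π : X.H1) (γ : G) (h : Pool.Agent.W547.LQ.IsFrobeniusAt X C ρ χ w q π γ) :
    TateForQuotients C ρ χ :=
  tate_open X b hX C ρ χ w q π γ h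

end Pool.Agent.Results.MP_2a05c8_ag.OpenInIndependentBlocks
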