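import Mathlib
import Pool.Agent.TH121.KT.Main

/-!
# Tate classes on products of ordinary K3 surfaces (and of rigid varieties) with arbitrary varieties

Let `X 1, …, X r` and `Z` be smooth projective varieties over a finite field of characteristic `p`. We
consider the Tate classes (over finite extensions of the field) on the products of any number of
copies of the `X i` and of `Z`. By the Künneth formula and Poincaré duality they are the multilinear
maps `f` from products of spaces `V k` to `M` which commute with a power of the Frobenius; here
`V k` is a cohomology group of some `X i`, `i = c k`, or its transcendental part, and `M` is a
cohomology group of `Z` (with a Tate twist, coefficients in an algebraically closed field `Ω`).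

* The Frobenius `F k` on `V k` is normalised to weight zero and semisimple, its eigenvalues are roots
  of unity or `e`-th roots of conjugates of a number `α i` in a CM field `K i`, up to roots of unity.
  For K3 surfaces `e = 1`; for the first cohomology of abelian varieties with Frobenius number `π` one
  takes `e = 2` and `α = π / (conjugate of π)`.
* `α i` is of *height one* if for exactly one embedding `a i` of `K i` in the algebraic closure of the
  rational numbers the absolute value of `a i (α i)` at a fixed place `ι` above `p` is less than one.
  This is the case for all ordinary K3 surfaces, and more generally for all varieties for which the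
  slopes of the Frobenius on `V k` are `-1, 0, …, 0, 1`, and for the abelian varieties of K3 type.
* `α i` is *rigid* if there are no multiplicative relations between its conjugates, apart from the
  obvious ones.
* `Z` is **arbitrary**: nothing is assumed about the Frobenius `G` on `M`, which need not be semisimple,
  or about the Tate conjecture for `Z`. `L` is any field such that the slopes of the conjugates of
  the Frobenius eigenvalues of `Z` are determined by the field `L`, for instance the field generated
  by all these eigenvalues.
* In the same way `S i` is a field which determines the slopes of the conjugates of `α i`. For `α i` of
  height one we may take the image of `K i` by the embedding `a i`.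

Suppose that each `α i` is independent of the field `T i` generated by `L` and `S j`, `j < i`, in the
following sense. If `α i` is of height one, the field `a i (K i) ∩ T i` is totally real, or the number of
the factors `k` with `c k = i` is less than the index of this field in `a i (K i)`. If `α i` is rigid, the
same holds for a Galois extension of the rational numbers that contains `T i`. Then **every** Tate class is
a linear combination of products of Tate classes on single varieties `X i`, on products of two
varieties of the same type `X i × X i`, and of a Tate class on `Z`.

For example, let `X i` be ordinary K3 surfaces with CM fields `K i` such that the intersection of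
`a i (K i)` and the field generated by the `a j (K j)`, `j < i`, is totally real, in particular any two
ordinary K3 surfaces whose fields `a 1 (K 1)`, `a 2 (K 2)` have no common CM subfield. Since the Tate
conjecture is known for K3 surfaces and their squares, it holds in all codimensions for all
products of powers of the `X i`. If `L` is small enough, it holds for the product of such a product and
of `Z` if and only if it holds for `Z`. The case of the powers of one ordinary K3 surface is due to
Zarhin. If the intersection contains a CM field `E`, products of norms to `E` give rise to
exotic Tate classes, but only on products with at least `[K i : E]` factors `X i`.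

The proof: a multiplicative relation gives, for each element `g` of the Galois group of the
rational numbers, a linear relation between the multiplicities at the embeddings
`g⁻¹ (a i)`. The last of them, as a function of `g`, is invariant under the group generated by the
Galois groups over `a i (K i)` and over `T i`, hence constant on the fibres of the restriction of
embeddings to the intersection.
-/

set_option autoImplicit false

namespace Pool.Agent.Results.MP_2a05c8_ag.ProductsOfKThrees

open NumberField Polynomial Pool.Agent.TH121.KT

theorem result (p : ℕ) [Fact p.Prime] (ι : AlgebraicClosure ℚ →+* PadicAlgCl p)
    -- the Weil numbers of the varieties `X i`, their slope fields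
    {r : ℕ} (K : Fin r → Type) [∀ i, Field (K i)] [∀ i, NumberField (K i)] [∀ i, IsCMField (K i)]
    (α : ∀ i, K i) (e : Fin r → ℕ) (he : ∀ i, 0 < e i)
    (S : Fin r → IntermediateField ℚ (AlgebraicClosure ℚ))
    (hS : ∀ i, IsSlopeField p ι (S i) (α i) ∨
      ∃ a, IsHeightOne p ι a (α i) ∧ S i = a.toRatAlgHom.fieldRange)
    -- the cohomology of the factors
    {Ω : Type} [Field Ω] [IsAlgClosed Ω] [CharZero Ω] {κ : Type} [Fintype κ] [DecidableEq κ]
    (c : κ → Fin r) (V : κ → Type) [∀ k, AddCommGroup (V k)] [∀ k, Module Ω (V k)]
    [∀ k, FiniteDimensional Ω (V k)] (F : ∀ k, V k →ₗ[Ω] V k)
    (hF : ∀ k, HasEigenvalues (e (c k)) (α (c k)) (F k))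
    -- the cohomology of `Z`
    {M : Type} [AddCommGroup M] [Module Ω M] [FiniteDimensional Ω M] (G : M →ₗ[Ω] M)
    (Q : ℚ[X]) (hQ : Q ≠ 0)
    (hG : ∀ β : Ω, Module.End.HasEigenvalue G β → ∃ N : ℕ, 0 < N ∧ aeval (β ^ N) Q = 0)
    (L : IntermediateField ℚ (AlgebraicClosure ℚ)) (hL : SlopesFixed p ι L Q)
    -- independence
    (hind : ∀ i, IsIndependent p ι (α i) (tower S L i)
      (Finset.univ.filter fun k => c k = i).card)
    (f : MultilinearMap Ω V M) (hf : IsTateMap F G f) :
    f ∈ Submodule.span Ω {ψ | IsProduct c F G ψ} := by
  refine tate_generated e he c F hF G hQ hG hL (S := S) (fun i => ?_) hind f hf
  rcases hS i with h | ⟨a, ha, h⟩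
  · exact h
  · rw [h]
    exact ha.isSlopeField

end Pool.Agent.Results.MP_2a05c8_ag.ProductsOfKThrees
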